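import Pool.Agent.Y691.PW.Pell

set_option autoImplicit false

/-! Powerful parts of products of consecutive integers. -/

namespace Pool.Agent.Y691.PW

open Finset Filter

/-- The powerful part of `m`: the product of the prime powers `p ^ k` exactly dividing `m` with
`k ≥ 2`. -/
def Q2 (m : ℕ) : ℕ := ∏ p ∈ m.primeFactors.filter (fun p => 2 ≤ m.factorization p),
  p ^ m.factorization p

/-- The product `n (n + 1) ⋯ (n + l)`. -/
def Prd (l n : ℕ) : ℕ := ∏ i ∈ range (l + 1), (n + i)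

lemma le_Q2 {d m : ℕ} (hm : m ≠ 0) (hd : d ∣ m) (hp : ∀ p : ℕ, p.Prime → p ∣ d → p ^ 2 ∣ d) :
    d ≤ Q2 m := by
  have hd0 : d ≠ 0 := fun h => hm (by rw [h] at hd; exact Nat.eq_zero_of_zero_dvd hd)
  have hf : ∀ p, d.factorization p ≤ m.factorization p :=
    fun p => (Nat.factorization_le_iff_dvd hd0 hm).2 hd p
  calc d = ∏ p ∈ d.primeFactors, p ^ d.factorization p := by
        conv_lhs => rw [← Nat.prod_factorization_pow_eq_self hd0]
        rfl
    _ ≤ ∏ p ∈ d.primeFactors, p ^ m.factorization p := by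
        refine prod_le_prod' fun p hp' => ?_
        exact Nat.pow_le_pow_right (Nat.prime_of_mem_primeFactors hp').pos (hf p)
    _ ≤ Q2 m := by
        unfold Q2
        refine prod_le_prod_of_subset_of_one_le' ?_ ?_
        · intro p hp'
          have hpp := Nat.prime_of_mem_primeFactors hp'
          have hpd := Nat.dvd_of_mem_primeFactors hp'
          refine mem_filter.2 ⟨Nat.primeFactors_mono hd hm hp', ?_⟩
          exact ((hpp.pow_dvd_iff_le_factorization hd0).1 (hp p hpp hpd)).trans (hf p)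
        · intro p hp' _
          have hpp := Nat.prime_of_mem_primeFactors (mem_filter.1 hp').1
          exact Nat.one_le_pow _ _ hpp.pos

/-- the values of `n` with the bounds -/
lemma block (j : ℕ) : ∃ n D : ℕ, j.factorial ≤ D ∧ n + 2 ≤ 9 ^ (3 ^ j * D + 1) ∧ D ^ 2 ≤ n + 2 ∧
    ∀ l : ℕ, 2 ≤ l → 0 < n → n * (n + 1) * D ^ 2 ≤ Q2 (Prd l n) := by
  obtain ⟨D, N, h1, hD0, hN, hNo, hDo, hdvd⟩ := construct j
  obtain ⟨k, hk⟩ := hNo
  have hNk : N = 2 * k + 1 := hk
  set h := H (2 * k) with hh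
  set p := P (2 * k) with hpp
  have hPN : P N = h + p := by rw [hNk, P_succ]
  have hn := norm_even (m := 2 * k) (even_two_mul k)
  rw [← hh, ← hpp] at hn
  have hph : p ≤ h := by nlinarith
  have hfac : 2 * p ^ 2 + 2 = 2 * (h - p) * (h + p) := by
    zify [hph]
    have : (h : ℤ) ^ 2 = 2 * p ^ 2 + 1 := by exact_mod_cast hn
    linear_combination (-2) * this
  have hge : h + p ∣ 2 * p ^ 2 + 2 := by rw [hfac]; exact Dvd.intro_left _ rfl
  have hDn : D ^ 2 ∣ 2 * p ^ 2 + 2 := by rw [hPN] at hdvd; exact hdvd.trans hge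
  refine ⟨2 * p ^ 2, D, h1, ?_, Nat.le_of_dvd (by omega) hDn, ?_⟩
  · have hg := growth N
    have : (h + p) ≤ 3 ^ N := by rw [← hPN]; omega
    calc 2 * p ^ 2 + 2 = 2 * (h - p) * (h + p) := hfac
      _ ≤ 2 * (h + p) * (h + p) := by
          refine Nat.mul_le_mul_right _ (Nat.mul_le_mul_left _ (by omega))
      _ ≤ 9 * (3 ^ N * 3 ^ N) := by
          have : (h + p) * (h + p) ≤ 3 ^ N * 3 ^ N := Nat.mul_le_mul this this
          nlinarith
      _ = 9 ^ (3 ^ j * D + 1) := by
          rw [← hN, pow_succ, show (9:ℕ) = 3 ^ 2 by norm_num, ← pow_mul]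
          ring
  · intro l hl hn0
    set n := 2 * p ^ 2 with hnd
    have hpe : Even p := P_even (even_two_mul k)
    have hp0 : 0 < p := by
      rcases Nat.eq_zero_or_pos p with h0 | h0
      · rw [hnd, h0] at hn0; simp at hn0
      · exact h0
    refine le_Q2 ?_ ?_ ?_
    · unfold Prd
      refine prod_ne_zero_iff.2 fun i _ => by omega
    · -- divisibility
      have hc1 : Nat.Coprime (n * (n + 1)) (D ^ 2) := by
        have hDo' : Odd (D ^ 2) := hDo.pow
        rw [Nat.coprime_mul_iff_left]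
        constructor
        · rw [Nat.coprime_comm]
          refine Nat.Coprime.coprime_dvd_left ?_ (?_ : Nat.Coprime (D ^ 2) n)
          · exact dvd_rfl
          · have : Nat.Coprime (D ^ 2) 2 := (Nat.coprime_two_right).2 hDo'
            have h3 : Nat.gcd (D ^ 2) n ∣ 2 := by
              have a1 : Nat.gcd (D ^ 2) n ∣ n + 2 := (Nat.gcd_dvd_left _ _).trans hDn
              exact (Nat.dvd_add_right (Nat.gcd_dvd_right _ _)).1 a1
            have h4 : Nat.gcd (D ^ 2) n ∣ Nat.gcd (D ^ 2) 2 :=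
              Nat.dvd_gcd (Nat.gcd_dvd_left _ _) h3
            rw [this] at h4
            exact Nat.dvd_one.1 h4
        · rw [Nat.coprime_comm]
          have a1 : Nat.gcd (D ^ 2) (n + 1) ∣ n + 1 + 1 := (Nat.gcd_dvd_left _ _).trans hDn
          have a2 : Nat.gcd (D ^ 2) (n + 1) ∣ 1 :=
            (Nat.dvd_add_right (Nat.gcd_dvd_right _ _)).1 a1
          exact Nat.dvd_one.1 a2
      have hsub : range 3 ⊆ range (l + 1) := range_subset_range.2 (by omega)
      have hd3 : n * (n + 1) * (n + 2) ∣ Prd l n := by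
        have := prod_dvd_prod_of_subset _ _ (fun i => n + i) hsub
        refine Dvd.dvd.trans ?_ this
        simp [prod_range_succ]
      refine Dvd.dvd.trans ?_ hd3
      exact Nat.mul_dvd_mul_left _ hDn
    · intro q hq hqd
      have h2n : q ∣ n → q ^ 2 ∣ n := by
        intro hqn
        rw [hnd] at hqn ⊢
        rcases (Nat.Prime.dvd_mul hq).1 hqn with h2 | h2
        · have h3 : q = 2 := (Nat.prime_dvd_prime_iff_eq hq Nat.prime_two).1 h2
          rw [h3]
          exact (pow_dvd_pow_of_dvd hpe.two_dvd 2).mul_left 2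
        · exact (pow_dvd_pow_of_dvd (hq.dvd_of_dvd_pow h2) 2).mul_left 2
      rcases (Nat.Prime.dvd_mul hq).1 hqd with h2 | h2
      · rcases (Nat.Prime.dvd_mul hq).1 h2 with h3 | h3
        · exact ((h2n h3).mul_right _).mul_right _
        · have : n + 1 = h ^ 2 := by rw [hnd, hn]
          rw [this] at h3 ⊢
          exact ((pow_dvd_pow_of_dvd (hq.dvd_of_dvd_pow h3) 2).mul_left _).mul_right _
      · exact (pow_dvd_pow_of_dvd (hq.dvd_of_dvd_pow h2) 2).mul_left _

lemma factorial_large (c : ℝ) : ∀ᶠ j : ℕ in atTop, c ^ j ≤ (j.factorial : ℝ) := by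
  have h := FloorSemiring.tendsto_pow_div_factorial_atTop c
  filter_upwards [h.eventually (gt_mem_nhds (show (0:ℝ) < 1 by norm_num))] with j hj
  have hf : (0:ℝ) < j.factorial := by exact_mod_cast j.factorial_pos
  rw [div_lt_one hf] at hj
  exact hj.le

/-- The quantitative theorem. -/
theorem main (l : ℕ) (hl : 2 ≤ l) (A : ℝ) (hA : A < 2) :
    ∃ᶠ n : ℕ in atTop, (n:ℝ) ^ 2 * Real.log n ^ A ≤ Q2 (Prd l n) := by
  -- reduce to `1 ≤ A`
  wlog hA1 : 1 ≤ A generalizing A
  · have h := this 1 (by norm_num) le_rfl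
    have h3 : ∀ᶠ n : ℕ in atTop, 3 ≤ n := eventually_ge_atTop 3
    refine (h.and_eventually h3).mono ?_
    rintro n ⟨hn, hn3⟩
    refine le_trans ?_ hn
    have hlog : 1 ≤ Real.log n := by
      rw [Real.le_log_iff_exp_le (by positivity)]
      have := Real.exp_one_lt_d9
      have h3' : (3:ℝ) ≤ n := by exact_mod_cast hn3
      linarith
    refine mul_le_mul_of_nonneg_left ?_ (by positivity)
    exact Real.rpow_le_rpow_of_exponent_le hlog (by linarith)
  rw [frequently_atTop]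
  intro M
  -- choose j
  set c : ℝ := (225 : ℝ) ^ (1 / (2 - A)) with hc
  have hA2 : 0 < 2 - A := by linarith
  obtain ⟨j, hj1, hj2, hj3⟩ := ((factorial_large c).and ((eventually_ge_atTop (M + 3)).and
    (factorial_large 1))).exists
  obtain ⟨n, D, hD, hn1, hn2, hn3⟩ := block j
  have hjf : j ≤ j.factorial := Nat.self_le_factorial j
  have hDM : M + 3 ≤ D := by omega
  have hn4 : M + 3 ≤ n + 2 := by nlinarith
  have hnM : M ≤ n := by omega
  have hn0 : 0 < n := by omega
  refine ⟨n, hnM, ?_⟩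
  have hQ := hn3 l hl hn0
  have hD0 : (0:ℝ) < D := by
    have : 0 < D := by omega
    exact_mod_cast this
  have hDf : (j.factorial : ℝ) ≤ D := by exact_mod_cast hD
  have hnR : (1:ℝ) ≤ n := by exact_mod_cast hn0
  have hlog0 : 0 ≤ Real.log n := Real.log_nonneg hnR
  -- the logarithm
  have hlog : Real.log n ≤ 5 * 3 ^ j * D := by
    have h1 : (n:ℝ) ≤ 9 ^ (3 ^ j * D + 1) := by
      have : n ≤ 9 ^ (3 ^ j * D + 1) := by omega
      exact_mod_cast this
    have h2 : Real.log n ≤ (3 ^ j * D + 1) * Real.log 9 := by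
      have := Real.log_le_log (by linarith) h1
      rw [Real.log_pow] at this
      push_cast at this
      exact this
    have h9 : Real.log 9 ≤ 2.5 := by
      rw [Real.log_le_iff_le_exp (by norm_num)]
      have h5 : Real.exp 2.5 = Real.exp 1 ^ 2 * Real.exp 0.5 := by
        rw [← Real.exp_nat_mul, ← Real.exp_add]; norm_num
      have e1 := Real.exp_one_gt_d9
      have e2 : (1.5:ℝ) ≤ Real.exp 0.5 := by
        have := Real.add_one_le_exp (0.5:ℝ)
        linarith
      rw [h5]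
      have e3 : (7.38:ℝ) ≤ Real.exp 1 ^ 2 := by nlinarith
      nlinarith
    have h3j : (1:ℝ) ≤ 3 ^ j * D := by
      have a1 : (1:ℝ) ≤ 3 ^ j := one_le_pow₀ (by norm_num)
      have a2 : (1:ℝ) ≤ D := by
        have : 1 ≤ D := by omega
        exact_mod_cast this
      nlinarith
    have hl9 : 0 ≤ Real.log 9 := Real.log_nonneg (by norm_num)
    calc Real.log n ≤ (3 ^ j * D + 1) * Real.log 9 := h2
      _ ≤ (3 ^ j * D + 1) * 2.5 := by
          refine mul_le_mul_of_nonneg_left h9 (by positivity)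
      _ ≤ 5 * 3 ^ j * D := by linarith
  -- the power of the logarithm
  have hpow : Real.log n ^ A ≤ (D:ℝ) ^ 2 := by
    have h1 : Real.log n ^ A ≤ (5 * 3 ^ j * D) ^ A := Real.rpow_le_rpow hlog0 hlog (by linarith)
    have h2 : ((5 * 3 ^ j * D : ℝ)) ^ A = (5 * 3 ^ j) ^ A * (D:ℝ) ^ A :=
      Real.mul_rpow (by positivity) hD0.le
    have h3 : ((5 * 3 ^ j : ℝ)) ^ A ≤ (5 * 3 ^ j) ^ (2:ℝ) := by
      refine Real.rpow_le_rpow_of_exponent_le ?_ hA.le
      have a1 : (1:ℝ) ≤ 3 ^ j := one_le_pow₀ (by norm_num)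
      linarith
    have h4 : ((5 * 3 ^ j : ℝ)) ^ (2:ℝ) ≤ 225 ^ j := by
      rw [Real.rpow_two]
      have hj0 : j ≠ 0 := by omega
      obtain ⟨i, rfl⟩ := Nat.exists_eq_succ_of_ne_zero hj0
      have e1 : (5 * 3 ^ (i + 1) : ℝ) ^ 2 = 225 * 9 ^ i := by
        have e0 : (9:ℝ) ^ i = (3 ^ i) ^ 2 := by
          rw [← pow_mul, mul_comm, pow_mul]; norm_num
        rw [e0, pow_succ (3:ℝ) i]; ring
      rw [e1, pow_succ]
      have e2 : (9:ℝ) ^ i ≤ 225 ^ i := pow_le_pow_left₀ (by norm_num) (by norm_num) i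
      linarith
    have hc0 : 0 ≤ c := by rw [hc]; positivity
    have h5 : (225:ℝ) ^ j = (c ^ j) ^ (2 - A) := by
      have e : c ^ (2 - A) = 225 := by
        rw [hc, ← Real.rpow_mul (by norm_num), one_div_mul_cancel hA2.ne', Real.rpow_one]
      rw [← Real.rpow_natCast c j, ← Real.rpow_mul hc0, mul_comm, Real.rpow_mul hc0, e,
        Real.rpow_natCast]
    have h6 : (c ^ j) ^ (2 - A) ≤ (D:ℝ) ^ (2 - A) :=
      Real.rpow_le_rpow (by positivity) (hj1.trans hDf) hA2.le
    calc Real.log n ^ A ≤ (5 * 3 ^ j * D) ^ A := h1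
      _ = (5 * 3 ^ j) ^ A * (D:ℝ) ^ A := h2
      _ ≤ (D:ℝ) ^ (2 - A) * (D:ℝ) ^ A := by
          refine mul_le_mul_of_nonneg_right ?_ (by positivity)
          exact h3.trans (h4.trans (h5.le.trans h6))
      _ = (D:ℝ) ^ 2 := by
          rw [← Real.rpow_add hD0, ← Real.rpow_natCast]; norm_num
  calc (n:ℝ) ^ 2 * Real.log n ^ A ≤ (n:ℝ) ^ 2 * (D:ℝ) ^ 2 :=
        mul_le_mul_of_nonneg_left hpow (by positivity)
    _ ≤ ((n * (n + 1) * D ^ 2 : ℕ) : ℝ) := by
        push_cast
        have : (0:ℝ) ≤ (n:ℝ) * (D:ℝ) ^ 2 := by positivity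
        nlinarith
    _ ≤ Q2 (Prd l n) := by exact_mod_cast hQ

/-- The qualitative statement. -/
theorem limsup_top (l : ℕ) (hl : 2 ≤ l) (C : ℝ) :
    ∃ᶠ n : ℕ in atTop, C * (n:ℝ) ^ 2 < Q2 (Prd l n) := by
  have h := main l hl 1 (by norm_num)
  have h2 : ∀ᶠ n : ℕ in atTop, C < Real.log n :=
    (Real.tendsto_log_atTop.comp tendsto_natCast_atTop_atTop).eventually_gt_atTop C
  refine (h.and_eventually (h2.and (eventually_gt_atTop 0))).mono ?_
  rintro n ⟨hn, hC, hn0⟩
  refine lt_of_lt_of_le ?_ hn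
  rw [Real.rpow_one, mul_comm]
  have : (0:ℝ) < (n:ℝ) ^ 2 := by
    have : (0:ℝ) < n := by exact_mod_cast hn0
    positivity
  exact mul_lt_mul_of_pos_left hC this

end Pool.Agent.Y691.PW
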