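import Mathlib

set_option autoImplicit false

/-! Pell numbers: divisibility and squares of primes. -/

namespace Pool.Agent.Y691.PW

/-- The pair (H_k, P_k) with (1+√2)^k = H_k + P_k √2. -/
def HP : ℕ → ℕ × ℕ
  | 0 => (1, 0)
  | k + 1 => ((HP k).1 + 2 * (HP k).2, (HP k).1 + (HP k).2)

def H (k : ℕ) : ℕ := (HP k).1
def P (k : ℕ) : ℕ := (HP k).2

lemma H_zero : H 0 = 1 := rfl
lemma P_zero : P 0 = 0 := rfl
lemma H_succ (k : ℕ) : H (k + 1) = H k + 2 * P k := rfl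
lemma P_succ (k : ℕ) : P (k + 1) = H k + P k := rfl

lemma norm (k : ℕ) : (H k : ℤ) ^ 2 - 2 * (P k : ℤ) ^ 2 = (-1) ^ k := by
  induction k with
  | zero => simp [H_zero, P_zero]
  | succ k ih =>
    rw [H_succ, P_succ, pow_succ]
    push_cast
    linear_combination (-1) * ih

/-- the unit 1 + √2 -/
def z : ℤ√2 := ⟨1, 1⟩

lemma z_pow (k : ℕ) : z ^ k = ⟨(H k : ℤ), (P k : ℤ)⟩ := by
  induction k with
  | zero => ext <;> simp [H_zero, P_zero]
  | succ k ih =>
    rw [pow_succ, ih, H_succ, P_succ]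
    ext <;> simp [z, Zsqrtd.re_mul, Zsqrtd.im_mul]

lemma pow_im (x : ℤ√2) (k : ℕ) :
    x.im ∣ (x ^ k).re - x.re ^ k ∧ x.im ^ 2 ∣ (x ^ k).im - k * x.re ^ (k - 1) * x.im := by
  induction k with
  | zero => simp
  | succ k ih =>
    obtain ⟨⟨u, hu⟩, ⟨v, hv⟩⟩ := ih
    rcases k with _ | k
    · simp
    rw [pow_succ]
    simp only [Zsqrtd.re_mul, Zsqrtd.im_mul, Nat.add_sub_cancel] at hv ⊢
    push_cast at hv ⊢
    have hu' : (x ^ (k + 1)).re = x.re ^ (k + 1) + x.im * u := by linarith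
    have hv' : (x ^ (k + 1)).im = ((k:ℤ) + 1) * x.re ^ k * x.im + x.im ^ 2 * v := by linarith
    rw [hu', hv']
    constructor
    · refine ⟨u * x.re + 2 * (((k:ℤ) + 1) * x.re ^ k * x.im + x.im ^ 2 * v), ?_⟩
      ring
    · refine ⟨u + v * x.re, ?_⟩
      ring

lemma P_mul (m n : ℕ) : (P (m * n) : ℤ) = ((z ^ m) ^ n).im := by
  rw [← pow_mul, z_pow]

lemma P_dvd_mul (m n : ℕ) : P m ∣ P (m * n) := by
  have h := (pow_im (z ^ m) n).2
  rw [← P_mul, z_pow] at h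
  simp only at h
  obtain ⟨c, hc⟩ := h
  have : (P m : ℤ) ∣ (P (m * n) : ℤ) := by
    refine ⟨n * (H m : ℤ) ^ (n - 1) + P m * c, ?_⟩
    linear_combination hc
  exact_mod_cast this

lemma P_dvd {m n : ℕ} (h : m ∣ n) : P m ∣ P n := by
  obtain ⟨c, rfl⟩ := h
  exact P_dvd_mul m c

lemma sq_dvd {q m : ℕ} (h : q ∣ P m) : q ^ 2 ∣ P (m * q) := by
  have h2 := (pow_im (z ^ m) q).2
  rw [← P_mul, z_pow] at h2
  simp only at h2
  obtain ⟨c, hc⟩ := h2
  obtain ⟨d, hd⟩ := h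
  have : (q : ℤ) ^ 2 ∣ (P (m * q) : ℤ) := by
    refine ⟨(H m : ℤ) ^ (q - 1) * d + d ^ 2 * c, ?_⟩
    rw [hd] at hc
    push_cast at hc
    linear_combination hc
  exact_mod_cast this

lemma P_three_mul (m : ℕ) : P (m * 3) = P m * (3 * H m ^ 2 + 2 * P m ^ 2) := by
  have : (P (m * 3) : ℤ) = (P m * (3 * H m ^ 2 + 2 * P m ^ 2) : ℕ) := by
    rw [P_mul, z_pow, pow_succ, pow_two]
    simp only [Zsqrtd.re_mul, Zsqrtd.im_mul]
    push_cast
    ring
  exact_mod_cast this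

lemma norm_odd {m : ℕ} (hm : Odd m) : H m ^ 2 + 1 = 2 * P m ^ 2 := by
  have h := norm m
  rw [hm.neg_one_pow] at h
  have : ((H m ^ 2 + 1 : ℕ) : ℤ) = (2 * P m ^ 2 : ℕ) := by push_cast; linarith
  exact_mod_cast this

lemma norm_even {m : ℕ} (hm : Even m) : H m ^ 2 = 2 * P m ^ 2 + 1 := by
  have h := norm m
  rw [hm.neg_one_pow] at h
  have : ((H m ^ 2 : ℕ) : ℤ) = (2 * P m ^ 2 + 1 : ℕ) := by push_cast; linarith
  exact_mod_cast this

/-- a new prime factor -/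
lemma new_prime {m : ℕ} (hm : Odd m) : ∃ q : ℕ, q.Prime ∧ q ∣ P (m * 3) ∧ ¬ q ∣ P m := by
  have hn := norm_odd hm
  have hP : 1 ≤ P m := by
    rcases Nat.eq_zero_or_pos (P m) with h | h
    · rw [h] at hn; omega
    · exact h
  set b := 3 * H m ^ 2 + 2 * P m ^ 2 with hb
  have hb1 : b ≠ 1 := by
    have : 1 ≤ P m ^ 2 := Nat.one_le_pow _ _ hP
    omega
  refine ⟨b.minFac, Nat.minFac_prime hb1, ?_, ?_⟩
  · rw [P_three_mul]
    exact (Nat.minFac_dvd b).mul_left _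
  · intro hq
    have hp := Nat.minFac_prime hb1
    set q := b.minFac with hqd
    have h1 : q ∣ 3 * H m ^ 2 := by
      have : q ∣ b := Nat.minFac_dvd b
      rw [hb] at this
      exact (Nat.dvd_add_left ((hq.trans (dvd_pow_self _ two_ne_zero)).mul_left 2)).1 this
    have hq2 : q ∣ H m ^ 2 + 1 := by
      rw [hn]; exact (hq.trans (dvd_pow_self _ two_ne_zero)).mul_left 2
    rcases (Nat.Prime.dvd_mul hp).1 h1 with h | h
    · have h3 : q = 3 := (Nat.prime_dvd_prime_iff_eq hp Nat.prime_three).1 h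
      rw [h3] at hq2
      have : ∀ a : ℕ, ¬ 3 ∣ a ^ 2 + 1 := by
        intro a ha
        have h4 : a % 3 = 0 ∨ a % 3 = 1 ∨ a % 3 = 2 := by omega
        have h5 : (a ^ 2 + 1) % 3 = 0 := Nat.mod_eq_zero_of_dvd ha
        rcases h4 with h4 | h4 | h4 <;> simp [Nat.add_mod, Nat.pow_mod, h4] at h5
      exact this _ hq2
    · have : q ∣ 1 := (Nat.dvd_add_right h).1 hq2
      exact hp.one_lt.ne' (Nat.dvd_one.1 this)

lemma P_odd {m : ℕ} (hm : Odd m) : Odd (P m) := by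
  have hn := norm_odd hm
  rw [← Nat.not_even_iff_odd]
  rintro ⟨c, hc⟩
  rw [hc] at hn
  have h1 : (H m ^ 2 + 1) % 4 = 0 := by
    rw [hn]; ring_nf; omega
  have h4 : H m % 4 = 0 ∨ H m % 4 = 1 ∨ H m % 4 = 2 ∨ H m % 4 = 3 := by omega
  rcases h4 with h4 | h4 | h4 | h4 <;> simp [Nat.add_mod, Nat.pow_mod, h4] at h1

lemma P_even {m : ℕ} (hm : Even m) : Even (P m) := by
  have hn := norm_even hm
  rw [← Nat.not_odd_iff_even]
  rintro ⟨c, hc⟩
  rw [hc] at hn
  have h1 : (H m ^ 2) % 4 = 3 := by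
    rw [hn]; ring_nf; omega
  have h4 : H m % 4 = 0 ∨ H m % 4 = 1 ∨ H m % 4 = 2 ∨ H m % 4 = 3 := by omega
  rcases h4 with h4 | h4 | h4 | h4 <;> simp [Nat.pow_mod, h4] at h1

lemma growth (k : ℕ) : H k + P k ≤ 3 ^ k := by
  induction k with
  | zero => simp [H_zero, P_zero]
  | succ k ih => rw [H_succ, P_succ, pow_succ]; omega

/-- primes dividing P (3^j) -/
lemma exists_primes (j : ℕ) : ∃ S : Finset ℕ, S.card = j ∧ (∀ q ∈ S, q.Prime) ∧
    ∀ q ∈ S, q ∣ P (3 ^ j) := by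
  induction j with
  | zero => exact ⟨∅, by simp⟩
  | succ j ih =>
    obtain ⟨S, hc, hp, hd⟩ := ih
    obtain ⟨q, hq, hq1, hq2⟩ := new_prime (m := 3 ^ j) (Odd.pow (by decide))
    refine ⟨insert q S, ?_, ?_, ?_⟩
    · rw [Finset.card_insert_of_notMem (fun h => hq2 (hd q h)), hc]
    · intro r hr
      rcases Finset.mem_insert.1 hr with h | h
      · rw [h]; exact hq
      · exact hp r h
    · intro r hr
      rcases Finset.mem_insert.1 hr with h | h
      · rw [h, pow_succ]; exact hq1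
      · exact (hd r h).trans (P_dvd (pow_dvd_pow 3 (Nat.le_succ j)))

lemma factorial_le_prod : ∀ (n : ℕ) (S : Finset ℕ), S.card = n → (∀ q ∈ S, 0 < q) →
    n.factorial ≤ ∏ q ∈ S, q := by
  intro n
  induction n with
  | zero =>
    intro S hS _
    rw [Finset.card_eq_zero.1 hS]; simp
  | succ n ih =>
    intro S hS hpos
    have hne : S.Nonempty := Finset.card_pos.1 (by omega)
    set M := S.max' hne with hM
    have hMS : M ∈ S := S.max'_mem hne
    have hle : n + 1 ≤ M := by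
      have : S ⊆ Finset.Icc 1 M := by
        intro x hx
        exact Finset.mem_Icc.2 ⟨hpos x hx, S.le_max' x hx⟩
      have := Finset.card_le_card this
      rw [Nat.card_Icc, hS] at this
      omega
    rw [← Finset.mul_prod_erase S _ hMS, Nat.factorial_succ]
    refine Nat.mul_le_mul hle (ih _ ?_ ?_)
    · rw [Finset.card_erase_of_mem hMS, hS]; rfl
    · intro q hq; exact hpos q (Finset.mem_of_mem_erase hq)

/-- the main construction -/
lemma construct (j : ℕ) : ∃ D N : ℕ, j.factorial ≤ D ∧ 0 < D ∧ N = 3 ^ j * D ∧ Odd N ∧ Odd D ∧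
    D ^ 2 ∣ P N := by
  obtain ⟨S, hc, hp, hd⟩ := exists_primes j
  have h3 : Odd (3 ^ j) := Odd.pow (by decide)
  have hodd : ∀ q ∈ S, Odd q := by
    intro q hq
    have := P_odd h3
    exact Odd.of_dvd_nat this (hd q hq)
  have hD : Odd (∏ q ∈ S, q) := by
    refine Finset.prod_induction _ Odd (fun a b ha hb => ha.mul hb) (by decide) hodd
  refine ⟨∏ q ∈ S, q, 3 ^ j * ∏ q ∈ S, q, factorial_le_prod j S hc (fun q hq => (hp q hq).pos),
    Finset.prod_pos (fun q hq => (hp q hq).pos), rfl, h3.mul hD, hD, ?_⟩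
  rw [← Finset.prod_pow]
  refine Finset.prod_dvd_of_isRelPrime ?_ ?_
  · intro a ha b hb hab
    have := (Nat.coprime_primes (hp a ha) (hp b hb)).2 hab
    have h2 := Nat.Coprime.pow 2 2 this
    exact (Nat.coprime_iff_isRelPrime.1 h2)
  · intro q hq
    refine (sq_dvd (hd q hq)).trans (P_dvd ?_)
    exact Nat.mul_dvd_mul_left _ (Finset.dvd_prod_of_mem (fun x => x) hq)

end Pool.Agent.Y691.PW
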